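import Pool.Agent.T2H26.NP.Tens
import Pool.Agent.T2H26.NP.TensAlg

/-!
# Hodge tensors at ALL algebraic points near every given point of a variation of mixed Hodge structure

Let `U` be a connected open subset of `ℂ^n` and let `g(x)`, `x ∈ U`, be an invertible matrix of analytic functions, whose
columns are a basis adapted to the Hodge filtration of a variation of mixed Hodge structure in a flat integral basis (the
column `h` lies in `F^(lev h)`, so the columns with `lev h ≥ p` span `F^p`), such that `ℂ(x)` is algebraically closed in the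
field generated by the entries (`Regular`; this means that the differential Galois group is connected), and let `Γ` be a
group of integral matrices such that all algebraic relations over `ℂ(x)` between the entries of `g` are relations between
the entries of `γ g`, `γ ∈ Γ` (`Invariant`), for instance the monodromy group.

There is **one** set `E` of Hausdorff dimension at most `2 (n - 1)` (dimension `0` for variations over curves) such that for
all `x ∈ U` outside `E`, all number fields `K ⊂ ℂ`, all tensor types `(a, b)`, all `A` and all `w > 0` (arbitrarily small)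
the following holds for all large `T` and at ALL points `s` with coordinates in `K`, of height at most `T`, with
`|s - x| ≤ T^(-w)`: if a tensor `t` of type `(a, b)` with coefficients in the integers of `K`, of size at most `T^A`, is in
`F^0` at `s`, then so are all its monodromy transforms `γ t`; and if `t` has integral coefficients and is a Hodge tensor (in
a stable subspace, e.g. the weight part `W_0`, with an invariant form which is positive on the nonzero real vectors of
`F^0`, e.g. the pullback of the polarization of `W_0 / W_(-1)`), then its monodromy orbit is finite. So by the theorem of the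
fixed part the Hodge tensors of the fibre at `s` which are not Hodge tensors of the general fibre (of a finite cover) are
larger than all powers of the height of `s`. If one fixes `K` and the exponent `τ` of the distance `|s - x| ≤ C T^(-τ)`, the
dimension of the exceptional set is at most `2 [K : ℚ] (n - 1) / τ`.

The proof uses the covering of exceptional points of bounded height by few hypersurfaces
(`Pool.Agent.Y890.VH.excI_cov`) and the estimates for the dimension of the set of the points which are well approximable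
by points on few hypersurfaces (`Pool.Agent.Helper264.NT.near_all`, `Pool.Agent.R437.Met.Tors.near`) of the starting library.
-/

set_option autoImplicit false

open NumberField Filter Topology
open scoped ENNReal

namespace Pool.Agent.Results.MP_eeb1a4_ag.HodgeTensorsNearEveryPoint

/-- tensors of type `(a, b)` (`a` contravariant and `b` covariant indices) with coefficients in `R` -/
abbrev Tensor (H R : Type) (a b : ℕ) : Type := (Fin a → H) → (Fin b → H) → R

/-- the tensor `(p ⊗ ⋯ ⊗ p) t (q ⊗ ⋯ ⊗ q)` -/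
def transform {H R : Type} [Fintype H] [CommRing R] {a b : ℕ} (p q : Matrix H H R) (t : Tensor H R a b) :
    Tensor H R a b :=
  fun c d => ∑ u, ∑ v, (∏ i, p (c i) (u i)) * t u v * ∏ j, q (v j) (d j)

/-- the action of an integral matrix on tensors with coefficients in any ring -/
def act {H R : Type} [Fintype H] [DecidableEq H] [CommRing R] {a b : ℕ} (γ : GL H ℤ) (t : Tensor H R a b) :
    Tensor H R a b :=
  transform ((γ : Matrix H H ℤ).map fun z : ℤ => (z : R)) (((γ⁻¹ : GL H ℤ) : Matrix H H ℤ).map fun z : ℤ => (z : R)) t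

/-- the tensor `t` is in the step `F^0`: its coordinates of negative level in the basis of the columns of `g` vanish -/
def InF0 {H : Type} [Fintype H] [DecidableEq H] {a b : ℕ} (lev : H → ℤ) (g : Matrix H H ℂ) (t : Tensor H ℂ a b) : Prop :=
  ∀ (c : Fin a → H) (d : Fin b → H), ∑ i, lev (c i) - ∑ j, lev (d j) < 0 → transform g⁻¹ g t c d = 0

/-- the value at `x` of a polynomial in the entries of the matrix `g`, whose coefficients are polynomials in `x` -/
noncomputable def value {X H : Type} (g : (X → ℂ) → Matrix H H ℂ) (x : X → ℂ)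
    (p : MvPolynomial (H × H) (MvPolynomial X ℂ)) : ℂ :=
  MvPolynomial.eval₂ (MvPolynomial.eval x) (fun q => g x q.1 q.2) p

/-- `ℂ(x)` is algebraically closed in the field generated by the entries of `g` on `U`: if on some nonempty open set
`V ⊆ U` an analytic function `f` is a quotient of polynomials in `x` and the entries, and is algebraic over `ℂ(x)`,
then it is a rational function of `x` -/
def Regular {X H : Type} [Fintype X] (U : Set (X → ℂ)) (g : (X → ℂ) → Matrix H H ℂ) : Prop :=
  ∀ (V : Set (X → ℂ)) (f : (X → ℂ) → ℂ) (P Q : MvPolynomial (H × H) (MvPolynomial X ℂ))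
    (R : Polynomial (MvPolynomial X ℂ)), IsOpen V → V.Nonempty → V ⊆ U → AnalyticOnNhd ℂ f V → R ≠ 0 →
    (∀ x ∈ V, value g x Q ≠ 0) → (∀ x ∈ V, value g x Q * f x = value g x P) →
    (∀ x ∈ V, (R.map (MvPolynomial.eval x)).eval (f x) = 0) →
    ∃ p q : MvPolynomial X ℂ, q ≠ 0 ∧ ∀ x ∈ V, MvPolynomial.eval x q * f x = MvPolynomial.eval x p

/-- the polynomial relations over `ℂ[x]` between the entries of `g` on `U` are relations between the entries of `γ g` -/
def Invariant {X H : Type} [Fintype H] [DecidableEq H] (U : Set (X → ℂ)) (g : (X → ℂ) → Matrix H H ℂ) (γ : GL H ℤ) :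
    Prop :=
  ∀ p : MvPolynomial (H × H) (MvPolynomial X ℂ), (∀ x ∈ U, value g x p = 0) →
    ∀ x ∈ U, value (fun x => (γ : Matrix H H ℤ).map (fun z : ℤ => (z : ℂ)) * g x) x p = 0

/-- the value at a tensor of the quadratic form with the coefficients `β` -/
def quad {H : Type} [Fintype H] {a b : ℕ} (β : (Fin a → H) → (Fin b → H) → Tensor H ℝ a b) (t : Tensor H ℝ a b) : ℝ :=
  ∑ u, ∑ v, ∑ u', ∑ v', β u v u' v' * t u v * t u' v'

/-- `W` is a subspace of the space of real tensors of type `(a, b)` which is stable under `Γ`, and `β` is a quadratic form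
which is invariant on `W` and positive on the nonzero vectors of `W` in `F^0`, at all points of `U` -/
structure Polarized {X H : Type} [Fintype H] [DecidableEq H] {a b : ℕ} (U : Set (X → ℂ)) (lev : H → ℤ)
    (g : (X → ℂ) → Matrix H H ℂ) (Γ : Subgroup (GL H ℤ)) (W : Set (Tensor H ℝ a b))
    (β : (Fin a → H) → (Fin b → H) → Tensor H ℝ a b) : Prop where
  zero : (fun _ _ => 0) ∈ W
  comb : ∀ (r r' : ℝ), ∀ t ∈ W, ∀ t' ∈ W, (fun u v => r * t u v + r' * t' u v) ∈ W
  stable : ∀ γ ∈ Γ, ∀ t ∈ W, act γ t ∈ W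
  invariant : ∀ γ ∈ Γ, ∀ t ∈ W, quad β (act γ t) = quad β t
  positive : ∀ x ∈ U, ∀ t ∈ W, (∃ u v, t u v ≠ 0) → InF0 lev (g x) (fun u v => (t u v : ℂ)) → 0 < quad β t

/-- `x` is the quotient of two integers of `K` all of whose conjugates have absolute value at most `T` -/
def HeightLe (K : Type) [Field K] [NumberField K] (T : ℝ) (x : K) : Prop :=
  ∃ a b : 𝓞 K, b ≠ 0 ∧ (∀ φ : K →+* ℂ, ‖φ a‖ ≤ T ∧ ‖φ b‖ ≤ T) ∧ x = a / b

/-- the point of `ℂ ^ X` given by a point of `K ^ X` -/
def point {X : Type} {K : IntermediateField ℚ ℂ} (s : X → K) : X → ℂ := fun i => s i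

/-- the complex tensor given by a tensor with coefficients in the integers of `K` -/
noncomputable def toC {H : Type} {K : IntermediateField ℚ ℂ} {a b : ℕ} (t : Tensor H (𝓞 K) a b) : Tensor H ℂ a b :=
  fun u v => ((t u v : K) : ℂ)

/-- All tensors of type `(a, b)` with coefficients in the integers of `K`, all conjugates of which are at most `T ^ A`,
which are in `F^0` at the point `s` have all their transforms `γ t`, `γ ∈ Γ`, in `F^0` at `s`. -/
def GoodField {X H : Type} [Fintype H] [DecidableEq H] (lev : H → ℤ) (g : (X → ℂ) → Matrix H H ℂ)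
    (Γ : Subgroup (GL H ℤ)) (K : IntermediateField ℚ ℂ) (a b : ℕ) (A T : ℝ) (s : X → K) : Prop :=
  ∀ t : Tensor H (𝓞 K) a b, (∀ u v (φ : K →+* ℂ), ‖φ (t u v)‖ ≤ T ^ A) → InF0 lev (g (point s)) (toC t) →
    ∀ γ ∈ Γ, InF0 lev (g (point s)) (act γ (toC t))

/-- All tensors of type `(a, b)` with integral coefficients of size at most `T ^ A` which are in `F^0` at `s` and in a
polarized subspace have a finite orbit under `Γ`. -/
def GoodInt {X H : Type} [Fintype H] [DecidableEq H] (U : Set (X → ℂ)) (lev : H → ℤ) (g : (X → ℂ) → Matrix H H ℂ)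
    (Γ : Subgroup (GL H ℤ)) (a b : ℕ) (A T : ℝ) (y : X → ℂ) : Prop :=
  ∀ t : Tensor H ℤ a b, (∀ u v, |(t u v : ℝ)| ≤ T ^ A) → InF0 lev (g y) (fun u v => (t u v : ℂ)) →
    ∀ (W : Set (Tensor H ℝ a b)) (β : (Fin a → H) → (Fin b → H) → Tensor H ℝ a b), Polarized U lev g Γ W β →
    (fun u v => (t u v : ℝ)) ∈ W → {t' | ∃ γ ∈ Γ, t' = act γ t}.Finite

/-- both properties -/
def Good {X H : Type} [Fintype H] [DecidableEq H] (U : Set (X → ℂ)) (lev : H → ℤ) (g : (X → ℂ) → Matrix H H ℂ)
    (Γ : Subgroup (GL H ℤ)) (K : IntermediateField ℚ ℂ) (a b : ℕ) (A T : ℝ) (s : X → K) : Prop :=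
  GoodField lev g Γ K a b A T s ∧ GoodInt U lev g Γ a b A T (point s)

/-- `s` is a point with coordinates of height at most `T` at distance at most `δ` from `x` -/
def Near {X : Type} (K : IntermediateField ℚ ℂ) [NumberField K] (x : X → ℂ) (T δ : ℝ) (s : X → K) : Prop :=
  ∀ i, HeightLe K T (s i) ∧ ‖point s i - x i‖ ≤ δ

section Proof

open Pool.Agent.T2H26.NP

variable {X H : Type} [Fintype H] [DecidableEq H]

theorem transform_eq {R : Type} [CommRing R] {a b : ℕ} (p q : Matrix H H R) (t : Tensor H R a b) :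
    transform p q t = trT p q t := rfl

theorem act_cast {R : Type} [CommRing R] {a b : ℕ} (γ : GL H ℤ) (t : Tensor H ℤ a b) (c : Fin a → H)
    (d : Fin b → H) : ((act γ t c d : ℤ) : R) = act γ (fun u v => (t u v : R)) c d := by
  have h := trT_map (Int.castRingHom R) ((γ : Matrix H H ℤ).map fun z : ℤ => (z : ℤ))
    (((γ⁻¹ : GL H ℤ) : Matrix H H ℤ).map fun z : ℤ => (z : ℤ)) t c d
  exact h

theorem act_castRC {a b : ℕ} (γ : GL H ℤ) (t : Tensor H ℝ a b) (c : Fin a → H)
    (d : Fin b → H) : ((act γ t c d : ℝ) : ℂ) = act γ (fun u v => (t u v : ℂ)) c d := by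
  have h := trT_map Complex.ofRealHom ((γ : Matrix H H ℤ).map fun z : ℤ => (z : ℝ))
    (((γ⁻¹ : GL H ℤ) : Matrix H H ℤ).map fun z : ℤ => (z : ℝ)) t c d
  rw [Matrix.map_map, Matrix.map_map] at h
  have e1 : (⇑Complex.ofRealHom ∘ fun z : ℤ => (z : ℝ)) = fun z : ℤ => (z : ℂ) := by
    funext z
    simp
  rw [e1] at h
  exact h

theorem gl_inv_mul (γ : GL H ℤ) : (((γ⁻¹ : GL H ℤ) : Matrix H H ℤ).map fun z : ℤ => (z : ℂ)) *
    ((γ : Matrix H H ℤ).map fun z : ℤ => (z : ℂ)) = 1 := by
  have h : ((γ⁻¹ : GL H ℤ) : Matrix H H ℤ) * (γ : Matrix H H ℤ) = 1 := by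
    rw [← Units.val_mul, inv_mul_cancel, Units.val_one]
  have h2 := congrArg (fun M : Matrix H H ℤ => M.map (Int.castRingHom ℂ)) h
  simp only [Matrix.map_mul, Matrix.map_one _ (map_zero _) (map_one _)] at h2
  exact h2

/-- the coordinates with respect to `γ g` -/
theorem coord_act {a b : ℕ} (γ : GL H ℤ) (g : Matrix H H ℂ) (t : Tensor H ℂ a b) :
    transform ((γ : Matrix H H ℤ).map (fun z : ℤ => (z : ℂ)) * g)⁻¹
      ((γ : Matrix H H ℤ).map (fun z : ℤ => (z : ℂ)) * g) t = transform g⁻¹ g (act γ⁻¹ t) := by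
  have h1 : ((γ : Matrix H H ℤ).map fun z : ℤ => (z : ℂ))⁻¹ = ((γ⁻¹ : GL H ℤ) : Matrix H H ℤ).map fun z : ℤ => (z : ℂ) :=
    Matrix.inv_eq_left_inv (gl_inv_mul γ)
  rw [Matrix.mul_inv_rev, h1]
  unfold act
  rw [transform_eq, transform_eq, transform_eq, trT_trT, inv_inv]

theorem inF0_iff {a b : ℕ} (lev : H → ℤ) (g : Matrix H H ℂ) (hg : g.det ≠ 0) (t : Tensor H ℂ a b) :
    InF0 lev g t ↔ InA lev g t := by
  have hco : ∀ (c : Fin a → H) (d : Fin b → H), transform g⁻¹ g t c d = (g.det⁻¹) ^ a * coA g t c d := by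
    intro c d
    unfold transform coA
    rw [Fintype.sum_prod_type, Finset.mul_sum]
    refine Finset.sum_congr rfl fun u _ => ?_
    rw [Finset.mul_sum]
    refine Finset.sum_congr rfl fun v _ => ?_
    have h1 : ∀ i, g⁻¹ (c i) (u i) = g.det⁻¹ * g.adjugate (c i) (u i) := by
      intro i
      rw [Matrix.inv_def, Matrix.smul_apply, Ring.inverse_eq_inv', smul_eq_mul]
    rw [Finset.prod_congr rfl fun i _ => h1 i, Finset.prod_mul_distrib, Finset.prod_const, Finset.card_univ,
      Fintype.card_fin]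
    ring
  have hne : (g.det⁻¹) ^ a ≠ 0 := pow_ne_zero _ (inv_ne_zero hg)
  constructor
  · intro h c d hcd
    have h1 := h c d hcd
    rw [hco] at h1
    exact (mul_eq_zero.1 h1).resolve_left hne
  · intro h c d hcd
    rw [hco, h c d hcd, mul_zero]

theorem good_of {U : Set (X → ℂ)} {lev : H → ℤ} {g : (X → ℂ) → Matrix H H ℂ} {Γ : Subgroup (GL H ℤ)}
    (hdet : ∀ x ∈ U, (g x).det ≠ 0) (K : IntermediateField ℚ ℂ) [NumberField K] (a b : ℕ) (A T : ℝ) (k : ℕ) (s : X → K)
    (hT : 1 ≤ T) (hA : A ≤ k) (hs : point s ∈ U)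
    (hbad : ¬ BadT (a := a) (b := b) lev g {M | ∃ γ ∈ Γ, M = (γ : Matrix H H ℤ).map fun z : ℤ => (z : ℂ)} K
      (algebraMap K ℂ) k T s) : Good U lev g Γ K a b A T s := by
  have hpow : T ^ A ≤ T ^ k := by
    rw [← Real.rpow_natCast]
    exact Real.rpow_le_rpow_of_exponent_le hT hA
  have h1 : GoodField lev g Γ K a b A T s := by
    intro t ht hF γ hγ
    by_contra hcon
    refine hbad ⟨t, fun u v φ => (ht u v φ).trans hpow, (inF0_iff lev _ (hdet _ hs) _).1 hF, _, ⟨γ⁻¹, Γ.inv_mem hγ, rfl⟩, ?_⟩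
    intro hA'
    apply hcon
    have hdet' : (((γ⁻¹ : GL H ℤ) : Matrix H H ℤ).map (fun z : ℤ => (z : ℂ)) * g (point s)).det ≠ 0 := by
      rw [Matrix.det_mul]
      refine mul_ne_zero ?_ (hdet _ hs)
      have h2 := gl_inv_mul γ⁻¹
      rw [inv_inv] at h2
      have h3 := congrArg Matrix.det h2
      rw [Matrix.det_mul, Matrix.det_one] at h3
      exact right_ne_zero_of_mul_eq_one h3
    have h4 := (inF0_iff lev _ hdet' _).2 hA'
    intro c d hcd
    have h5 := h4 c d hcd
    rw [coord_act, inv_inv] at h5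
    exact h5
  refine ⟨h1, fun t ht hF W β hWB htW => ?_⟩
  -- all transforms are in `F^0`
  have hall : ∀ γ ∈ Γ, InF0 lev (g (point s)) (fun u v => ((act γ t u v : ℤ) : ℂ)) := by
    intro γ hγ
    have h3 : (toC fun (u : Fin a → H) (v : Fin b → H) => ((t u v : ℤ) : 𝓞 K)) = fun u v => (t u v : ℂ) := by
      funext u v
      simp [toC]
    have h2 := h1 (fun u v => ((t u v : ℤ) : 𝓞 K)) (fun u v φ => by
      have h3 : φ (((t u v : ℤ) : 𝓞 K) : K) = ((t u v : ℤ) : ℂ) := by simp
      rw [h3, Complex.norm_intCast]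
      exact ht u v) (by
      rw [h3]
      exact hF) γ hγ
    rw [h3] at h2
    have h4 : (fun (u : Fin a → H) (v : Fin b → H) => ((act γ t u v : ℤ) : ℂ)) = act γ fun u v => (t u v : ℂ) := by
      funext u v
      exact act_cast γ t u v
    rw [h4]
    exact h2
  -- the real tensors of `W` in `F^0`
  let S : Submodule ℝ (Tensor H ℝ a b) :=
    { carrier := {y | y ∈ W ∧ InF0 lev (g (point s)) (fun u v => (y u v : ℂ))}
      zero_mem' := by
        refine ⟨hWB.zero, fun c d _ => ?_⟩
        have h2 : (fun (u : Fin a → H) (v : Fin b → H) => (((0 : Tensor H ℝ a b) u v : ℝ) : ℂ)) = 0 := by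
          funext u v
          simp
        rw [h2, transform_eq, trT_zero]
        rfl
      add_mem' := by
        rintro y z ⟨hy, hy2⟩ ⟨hz, hz2⟩
        refine ⟨?_, fun c d hcd => ?_⟩
        · have h2 := hWB.comb 1 1 y hy z hz
          simp only [one_mul] at h2
          exact h2
        have h2 : (fun (u : Fin a → H) (v : Fin b → H) => (((y + z) u v : ℝ) : ℂ)) =
            (fun u v => (y u v : ℂ)) + fun u v => (z u v : ℂ) := by
          funext u v
          simp
        rw [h2, transform_eq, trT_add, Pi.add_apply, Pi.add_apply, ← transform_eq, ← transform_eq, hy2 c d hcd,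
          hz2 c d hcd, add_zero]
      smul_mem' := by
        rintro r y ⟨hy, hy2⟩
        refine ⟨?_, fun c d hcd => ?_⟩
        · have h2 := hWB.comb r 0 y hy y hy
          simp only [zero_mul, add_zero] at h2
          exact h2
        have h2 : (fun (u : Fin a → H) (v : Fin b → H) => (((r • y) u v : ℝ) : ℂ)) =
            (r : ℂ) • fun u v => (y u v : ℂ) := by
          funext u v
          simp
        rw [h2, transform_eq, trT_smul, Pi.smul_apply, Pi.smul_apply, ← transform_eq, hy2 c d hcd, smul_zero] }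
  let B : Tensor H ℝ a b →ₗ[ℝ] Tensor H ℝ a b →ₗ[ℝ] ℝ :=
    LinearMap.mk₂ ℝ (fun y z => ∑ u, ∑ v, ∑ u', ∑ v', β u v u' v' * y u v * z u' v')
      (fun y y' z => by
        simp only [Pi.add_apply, mul_add, add_mul, Finset.sum_add_distrib])
      (fun r y z => by
        simp only [Pi.smul_apply, smul_eq_mul, Finset.mul_sum]
        refine Finset.sum_congr rfl fun u _ => Finset.sum_congr rfl fun v _ => Finset.sum_congr rfl fun u' _ =>
          Finset.sum_congr rfl fun v' _ => ?_
        ring)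
      (fun y z z' => by
        simp only [Pi.add_apply, mul_add, Finset.sum_add_distrib])
      (fun r y z => by
        simp only [Pi.smul_apply, smul_eq_mul, Finset.mul_sum]
        refine Finset.sum_congr rfl fun u _ => Finset.sum_congr rfl fun v _ => Finset.sum_congr rfl fun u' _ =>
          Finset.sum_congr rfl fun v' _ => ?_
        ring)
  have hB : ∀ y, B y y = quad β y := fun y => rfl
  obtain ⟨κ, hκ, hcoer⟩ := coercive S B fun y hy hy0 => by
    rw [hB]
    refine hWB.positive _ hs y hy.1 ?_ hy.2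
    by_contra hcon
    push Not at hcon
    exact hy0 (funext fun u => funext fun v => hcon u v)
  refine int_finite _ (Real.sqrt (B (fun u v => (t u v : ℝ)) (fun u v => (t u v : ℝ)) / κ)) ?_
  rintro _ ⟨γ, hγ, rfl⟩ u v
  have hreal : (fun (u : Fin a → H) (v : Fin b → H) => ((act γ t u v : ℤ) : ℝ)) = act γ fun u v => (t u v : ℝ) := by
    funext u v
    exact act_cast γ t u v
  have hmem : (fun (u : Fin a → H) (v : Fin b → H) => ((act γ t u v : ℤ) : ℝ)) ∈ S := by
    refine ⟨?_, ?_⟩
    · rw [hreal]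
      exact hWB.stable γ hγ _ htW
    · have h2 := hall γ hγ
      simpa using h2
  have h2 := hcoer _ hmem
  have h3 : B (fun u v => ((act γ t u v : ℤ) : ℝ)) (fun u v => ((act γ t u v : ℤ) : ℝ)) =
      B (fun u v => (t u v : ℝ)) (fun u v => (t u v : ℝ)) := by
    rw [hreal, hB, hB]
    exact hWB.invariant γ hγ _ htW
  rw [h3] at h2
  have h4 : |((act γ t u v : ℤ) : ℝ)| ≤ ‖(fun (u : Fin a → H) (v : Fin b → H) => ((act γ t u v : ℤ) : ℝ))‖ := by
    have h5 := norm_le_pi_norm (fun (u : Fin a → H) (v : Fin b → H) => ((act γ t u v : ℤ) : ℝ)) u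
    have h6 := norm_le_pi_norm (fun (v : Fin b → H) => ((act γ t u v : ℤ) : ℝ)) v
    rw [← Real.norm_eq_abs]
    exact h6.trans h5
  refine h4.trans (Real.le_sqrt_of_sq_le ?_)
  rw [le_div_iff₀ hκ]
  linarith

end Proof

/-- **Theorem.** Let `U ⊆ ℂ ^ X` be nonempty, open and connected, `n = |X|`, let `g(x)`, `x ∈ U`, be an invertible matrix with
analytic entries, `Regular`, and let `Γ` be a subgroup of `GL_H(ℤ)` whose elements have the property `Invariant`.

1. There is a set `E` of Hausdorff dimension at most `2 (n - 1)` such that for all `x ∈ U` outside `E`, all number fields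
`K ⊂ ℂ`, all `a`, `b`, all `A` and all `w > 0` there is `T₀` such that for all `T ≥ T₀` all points `s ∈ K ^ X` with coordinates
of height at most `T` and `|s_i - x_i| ≤ T ^ (-w)` are `Good`.

2. For every number field `K ⊂ ℂ` and every `τ > 0` there is a set `E` of Hausdorff dimension at most
`2 [K : ℚ] (n - 1) / τ` such that for all `x ∈ U` outside `E`, all `a`, `b`, `A` and `C` there is `T₀` such that for all
`T ≥ T₀` all points `s ∈ K ^ X` with coordinates of height at most `T` and `|s_i - x_i| ≤ C T ^ (-τ)` are `Good`. -/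
theorem result {X H : Type} [Fintype X] [DecidableEq X] [Nonempty X] [Fintype H] [DecidableEq H] (U : Set (X → ℂ))
    (lev : H → ℤ) (g : (X → ℂ) → Matrix H H ℂ) (Γ : Subgroup (GL H ℤ)) (hU : IsPreconnected U) (hUo : IsOpen U)
    (hne : U.Nonempty) (hg : ∀ i j, AnalyticOnNhd ℂ (fun x => g x i j) U) (hdet : ∀ x ∈ U, (g x).det ≠ 0)
    (hreg : Regular U g) (hΓ : ∀ γ ∈ Γ, Invariant U g γ) :
    (∃ E : Set (X → ℂ), dimH E ≤ ((2 * (Fintype.card X - 1) : ℕ) : ℝ≥0∞) ∧ ∀ x ∈ U, x ∉ E →
      ∀ (K : IntermediateField ℚ ℂ) [NumberField K] (a b : ℕ) (A w : ℝ), 0 < w → ∃ T₀ : ℝ, ∀ T ≥ T₀, ∀ s : X → K,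
        Near K x T (T ^ (-w)) s → Good U lev g Γ K a b A T s) ∧
    (∀ (K : IntermediateField ℚ ℂ) [NumberField K] (τ : ℝ), 0 < τ → ∃ E : Set (X → ℂ),
      dimH E ≤ ENNReal.ofReal (2 * (Module.finrank ℚ K : ℝ) * ((Fintype.card X : ℝ) - 1) / τ) ∧ ∀ x ∈ U, x ∉ E →
      ∀ (a b : ℕ) (A C : ℝ), ∃ T₀ : ℝ, ∀ T ≥ T₀, ∀ s : X → K,
        Near K x T (C * T ^ (-τ)) s → Good U lev g Γ K a b A T s) := by
  classical
  have hreg' : Pool.Agent.Y890.MV.RegularM U (Pool.Agent.T2H26.NP.fnn g) := fun V f P Q R h1 h2 h3 h4 h5 h6 h7 h8 =>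
    hreg V f P Q R h1 h2 h3 h4 h5 h6 h7 h8
  set Γ' : Set (Matrix H H ℂ) := {M | ∃ γ ∈ Γ, M = (γ : Matrix H H ℤ).map fun z : ℤ => (z : ℂ)} with hΓ'def
  have hΓ' : ∀ γ ∈ Γ', Pool.Agent.T2H26.NP.InvM U g γ := by
    rintro _ ⟨γ, hγ, rfl⟩ p hp x hx
    exact hΓ γ hγ p hp x hx
  have hHt : ∀ (K : IntermediateField ℚ ℂ) [NumberField K] (T : ℝ) (x : K), HeightLe K T x →
      Pool.Agent.Y120.HtLe K T x := fun K _ T x h => Pool.Agent.R437.Met.Tors.htLe_of h
  refine ⟨?_, ?_⟩
  · choose E hE1 hE2 using fun ab : ℕ × ℕ => Pool.Agent.T2H26.NP.near_T (a := ab.1) (b := ab.2) (lev := lev) hU hUo hne hg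
      hreg' Γ' hΓ'
    refine ⟨⋃ ab, E ab, ?_, fun x hx hxE K _ a b A w hw => ?_⟩
    · rw [dimH_iUnion]
      exact iSup_le hE1
    obtain ⟨k₀, hk₀⟩ := hE2 (a, b) x hx fun h => hxE (Set.mem_iUnion.2 ⟨(a, b), h⟩)
    obtain ⟨T₁, hT₁⟩ := hk₀ K (max k₀ ⌈A⌉₊) (le_max_left _ _) w hw
    obtain ⟨k₁, ρ, -, hρ, hin⟩ := Pool.Agent.T2H26.NP.inner_near hUo hx
    obtain ⟨T₂, hT₂⟩ := Pool.Agent.T2H26.NP.small_rpow hw hρ
    refine ⟨max (max T₁ T₂) 1, fun T hT s hs => ?_⟩
    have hT1 : 1 ≤ T := (le_max_right _ _).trans hT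
    have hd : dist (fun i => ((s i : K) : ℂ)) x ≤ T ^ (-w) := by
      rw [dist_pi_le_iff (by positivity)]
      intro i
      rw [dist_eq_norm]
      exact (hs i).2
    have hmem : (fun i => ((s i : K) : ℂ)) ∈ U := by
      have h1 := hin (k₁ + 1) (Nat.le_succ _) _ (hd.trans_lt (hT₂ T (((le_max_right _ _).trans (le_max_left _ _)).trans hT)))
      exact Pool.Agent.Y890.MV.innerM_sub U (Nat.succ_pos _) h1
    refine good_of hdet K a b A T (max k₀ ⌈A⌉₊) s hT1 ?_ hmem
      (hT₁ T (((le_max_left _ _).trans (le_max_left _ _)).trans hT) s fun i => ⟨hHt K T _ (hs i).1, (hs i).2⟩)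
    exact (Nat.le_ceil A).trans (by exact_mod_cast le_max_right _ _)
  · intro K _ τ hτ
    choose E hE h using fun ab : ℕ × ℕ => Pool.Agent.R437.Met.Tors.near (X := X) K (algebraMap K ℂ) U hUo
      (fun k T s => Pool.Agent.T2H26.NP.BadT (a := ab.1) (b := ab.2) lev g Γ' K (algebraMap K ℂ) k T s)
      (fun k T T' s hT hTT' hbad => Pool.Agent.T2H26.NP.badT_mono lev g Γ' K _ k T T' s hT hTT' hbad) 1
      (fun k ε hk hε => Pool.Agent.T2H26.NP.badT_cov (lev := lev) hU hUo hne hg hreg' Γ' hΓ' K (algebraMap K ℂ)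
        k ε hk hε) τ hτ
    refine ⟨⋃ ab, E ab, ?_, fun x hx hxE a b A C => ?_⟩
    · rw [dimH_iUnion]
      exact iSup_le hE
    obtain ⟨k₀, hk₀⟩ := h (a, b) x hx fun h => hxE (Set.mem_iUnion.2 ⟨(a, b), h⟩)
    obtain ⟨T₁, hT₁⟩ := hk₀ (max k₀ ⌈A⌉₊) (le_max_left _ _) C
    obtain ⟨k₁, ρ, -, hρ, hin⟩ := Pool.Agent.T2H26.NP.inner_near hUo hx
    obtain ⟨T₂, hT₂⟩ := Pool.Agent.T2H26.NP.small_rpow hτ (show (0 : ℝ) < ρ / (|C| + 1) by positivity)
    refine ⟨max (max T₁ T₂) 1, fun T hT s hs => ?_⟩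
    have hT1 : 1 ≤ T := (le_max_right _ _).trans hT
    have hT0 : 0 < T := by linarith
    have hd : dist (fun i => ((s i : K) : ℂ)) x ≤ |C| * T ^ (-τ) := by
      rw [dist_pi_le_iff (by positivity)]
      intro i
      rw [dist_eq_norm]
      exact (hs i).2.trans (mul_le_mul_of_nonneg_right (le_abs_self C) (by positivity))
    have hd2 : dist (fun i => ((s i : K) : ℂ)) x < ρ := by
      have h1 := hT₂ T (((le_max_right _ _).trans (le_max_left _ _)).trans hT)
      have h2 : 0 < T ^ (-τ) := Real.rpow_pos_of_pos hT0 _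
      rw [lt_div_iff₀ (by positivity)] at h1
      nlinarith [abs_nonneg C]
    have hmem : (fun i => ((s i : K) : ℂ)) ∈ U := by
      have h1 := hin (k₁ + 1) (Nat.le_succ _) _ hd2
      exact Pool.Agent.Y890.MV.innerM_sub U (Nat.succ_pos _) h1
    refine good_of hdet K a b A T (max k₀ ⌈A⌉₊) s hT1 ?_ hmem
      (hT₁ T (((le_max_left _ _).trans (le_max_left _ _)).trans hT) s fun i => ⟨hHt K T _ (hs i).1, by
        rw [norm_sub_rev]
        exact (hs i).2⟩)
    exact (Nat.le_ceil A).trans (by exact_mod_cast le_max_right _ _)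

end Pool.Agent.Results.MP_eeb1a4_ag.HodgeTensorsNearEveryPoint
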