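import Pool.Agent.T2H68.ZD.W2

/-!
# MP_eeb1a4_ag: finitely many pull-backs for all subvarieties of bounded degree

The mixed Shimura variety `Y(1)^n × G_m^k` is the open subset `ℂ^n × (ℂ^×)^k` of the affine space
`ℂ^(n + k)` (via the elliptic modular function on `Y(1)`). On a subvariety `X` of it there is the
variation of mixed Hodge structures which is the sum of the `R^1` of families of elliptic curves with
the `j`-invariants `x_1, …, x_n` and of the Kummer extensions of `ℤ` by `ℤ(1)` given by the units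
`y_1, …, y_k`. Its Hodge locus consists of the intersections of `X` with the special subvarieties
`Z × T` of `Y(1)^n × G_m^k`, and an intersection is atypical if its dimension is larger than
`dim X + dim Z + dim T - (n + k)`.

For degrees `D_i ≥ 1` and a vector `c` of complex numbers let `φ_i = N_i / M_i` be the rational
function of the `i`-th coordinate with the numerator `N_i = ∑_l c(i, 0, l) x^l` and the denominator
`M_i = ∑_l c(i, 1, l) x^l`, `0 ≤ l ≤ D_i`, and let `φ_c = (φ_1, …, φ_(n+k))`. For `D_i = 1` this is an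
`(n + k)`-tuple of Möbius transformations, and the pull-backs under `φ_c` are the translates by the
inverse transformations.

A subset `V` of `ℂ^(n + k)` is of dimension at most `d` and degree at most `δ` (`Bounded d δ V`) if
any `d + 1` of the coordinates satisfy on `V` a nontrivial equation of degree at most `δ` in each of
the variables. For an irreducible `V` of dimension `d` there is such a `δ` (part 4), for instance its
degree as a projective variety; but `V` may be reducible, too.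

It is proved, **uniformly for all tuples of `s` varieties** of degree at most `δ`, over arbitrary
fields of definition:

1. There is a number `B`, depending only on `n, k, D, δ, s` and `Γ`, such that for all choices of
   `(n² + 2^k) (k + 1) + 1` different primes `p_m > B` there is a modulus `Q`, a product of powers of
   these primes, with the following property: for all `V_1, …, V_s` of dimensions at most `d_a` and
   degree at most `δ` there is a residue class modulo `Q` such that for **all** vectors `c` in this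
   residue class (with entries which are integers, algebraic integers or numbers integral over
   `ℤ[Γ]`) the functions `φ_i` are not constant, and the pull-backs `φ_c⁻¹(V_a)` have no atypical
   intersections with special subvarieties, simultaneously for all `a`.
2. For all real vectors `u`, all integral vectors `c₀`, all `m ≥ 1` and `ε > 0` there is a **finite**
   set `W` of rational vectors `c / q` with `q ≡ 1 mod m`, `c ≡ c₀ mod m`, whose entries differ from
   those of `u` by less than `ε`, such that for all `V_1, …, V_s` as above at least one element of `W`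
   has this property. In particular (`D_i = 1`) there are such finite sets of tuples of Möbius
   transformations arbitrarily near to the identity.
3. In every residue class and every box `H u + [-ε H, ε H]^N` at least `η H^N` of the integral
   vectors `c` have this property for all `H ≥ H₀`, where `η > 0` and `H₀` do not depend on
   `V_1, …, V_s`.

Here `Γ` is any finite set of complex numbers, and the constant modular coordinates of the special
subvarieties are special, or isogenous to elements of `Γ`, or any numbers integral over `ℤ[Γ]`, and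
the torus part is a coset of an algebraic subgroup through a point of the division hull of `Γ`.

For one fixed irreducible `V` and integral vectors `c` part 3 is the starting file
`MP_defd1c_ag.MixedPullbacks` (`MP_d83ecd_ag.MoebiusTranslates` for `k = 0`, `D_i = 1`), where the
modulus and the proportion depend on `V`. Curves in `Y(1)^n` and Möbius transformations are the case
of our file `MP_e573c6_ag.UniformTranslates`. The proof uses the same criterion, but the equations
are normalised separately at a place above each of the primes, and their zeros are avoided modulo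
the primes (which is possible if the primes are large compared with the degrees), so that the primes
and the modulus do not depend on the equations.
-/

set_option autoImplicit false

namespace Pool.Agent.Results.MP_eeb1a4_ag.UniformPullbacks

open H294ZP UpperHalfPlane MvPolynomial Pool.Agent.W282.ZP

/-- A special subvariety of `Y(1)^n = ℂ^n` of dimension `r` (with more constants allowed): a map
`cls` from the coordinates onto `r` classes (`none` for constant coordinates), an integral matrix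
of positive determinant for every coordinate, and a constant for every coordinate, which is a
special point, isogenous to an element of `Γ`, or integral over `ℤ[Γ]`. -/
structure ModularDatum (Γ : Finset ℂ) (n r : ℕ) where
  /-- the class of a coordinate -/
  cls : Fin n → Option (Fin r)
  surj : ∀ l : Fin r, ∃ i, cls i = some l
  /-- the matrix of a coordinate -/
  mat : Fin n → Matrix (Fin 2) (Fin 2) ℤ
  det_pos : ∀ i, 0 < (mat i).det
  /-- the value of a constant coordinate -/
  const : Fin n → ℂ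
  allowed : ∀ i, AllowedConst Γ (const i)

/-- The points of the special subvariety: the constant coordinates are the given constants, and the
coordinates of class `l` are `j (g_i z_l)`, with a free parameter `z_l` in the upper half plane. -/
def ModularDatum.locus {Γ : Finset ℂ} {n r : ℕ} (Z : ModularDatum Γ n r) : Set (Fin n → ℂ) :=
  {x | ∃ z : Fin r → ℍ, ∀ i, (Z.cls i = none → x i = Z.const i) ∧
    ∀ l, Z.cls i = some l → ∃ w : ℍ,
      (w : ℂ) * (Z.mat i 1 0 * z l + Z.mat i 1 1) = Z.mat i 0 0 * z l + Z.mat i 0 1 ∧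
      x i = jj w}

/-- The coset `{y | y ^ a = η ^ a for all a in Λ}` of an algebraic subgroup of `(ℂ^×)^k`, of
dimension `k - rank Λ`. -/
def coset {k : ℕ} (Λ : Submodule ℤ (Fin k → ℤ)) (η : Fin k → ℂ) : Set (Fin k → ℂ) :=
  {y | (∀ i, y i ≠ 0) ∧ ∀ a ∈ Λ, ∏ i, y i ^ a i = ∏ i, η i ^ a i}

/-- The value of the numerator (`b = 0`) or denominator (`b = 1`) of `φ_i` at `x`. -/
def part {ι : Type} {D : ι → ℕ} (c : Idx D → ℂ) (i : ι) (b : Fin 2) (x : ℂ) : ℂ :=
  ∑ l : Fin (D i + 1), c ⟨i, b, l⟩ * x ^ (l : ℕ)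

/-- The pull-back of `V` under the rational map `φ_c` with coefficient vector `c`. -/
def pullback {ι : Type} {D : ι → ℕ} (c : Idx D → ℂ) (V : Set (ι → ℂ)) : Set (ι → ℂ) :=
  {x | (∀ i, part c i 1 (x i) ≠ 0) ∧ (fun i => part c i 0 (x i) / part c i 1 (x i)) ∈ V}

/-- The Zariski closure of `φ_c⁻¹(V)`, where `dim V ≤ d`, has no atypical intersections with the
special subvarieties `Z × T` of `Y(1)^n × G_m^k`, `dim Z = r`, `dim T = k - rank Λ`: every
irreducible subset `A` of the intersection satisfies `dim A ≤ d + dim Z + dim T - (n + k)`. -/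
def NoAtypical (Γ : Finset ℂ) {n k : ℕ} {D : Fin n ⊕ Fin k → ℕ} (d : ℕ) (c : Idx D → ℂ)
    (V : Set (Fin n ⊕ Fin k → ℂ)) : Prop :=
  ∀ (r : ℕ) (Z : ModularDatum Γ n r) (Λ : Submodule ℤ (Fin k → ℤ)) (η : Fin k → ℂ),
    (∀ i, DivHull Γ (η i)) → ∀ A : Set (Fin n ⊕ Fin k → ℂ), A ⊆ zcl (pullback c V) →
      (∀ x ∈ A, (fun i => x (Sum.inl i)) ∈ Z.locus ∧ (fun i => x (Sum.inr i)) ∈ coset Λ η) →
        (idealOf A).IsPrime →
          zdim A + (n : Cardinal) + (Module.finrank ℤ Λ : Cardinal) ≤ (d : Cardinal) + (r : Cardinal)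

/-- The rational functions `φ_i` are not constant: `φ_i(0) ≠ φ_i(∞)`. -/
def NonConstant {ι : Type} {D : ι → ℕ} (c : Idx D → ℂ) : Prop :=
  ∀ i, c ⟨i, 0, 0⟩ * c ⟨i, 1, Fin.last (D i)⟩ ≠ c ⟨i, 0, Fin.last (D i)⟩ * c ⟨i, 1, 0⟩

/-- The dimension of `V` is at most `d` and its degree is at most `δ`: any `d + 1` of the coordinates
satisfy on `V` a nontrivial equation of degree at most `δ` in each of the variables. -/
def Bounded {ι : Type} (d δ : ℕ) (V : Set (ι → ℂ)) : Prop :=
  ∀ J : Finset ι, J.card = d + 1 → ∃ f : MvPolynomial J ℂ, f ≠ 0 ∧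
    (∀ m ∈ f.support, ∀ i, m i ≤ δ) ∧ ∀ x ∈ V, eval (fun i : J => x i) f = 0

/-- The map `φ_c` is not constant in any coordinate, and the pull-backs of all the `V_a` have no
atypical intersections. -/
def Good (Γ : Finset ℂ) {n k s : ℕ} {D : Fin n ⊕ Fin k → ℕ} (d : Fin s → ℕ)
    (V : Fin s → Set (Fin n ⊕ Fin k → ℂ)) (c : Idx D → ℂ) : Prop :=
  NonConstant c ∧ ∀ a, NoAtypical Γ (d a) c (V a)

/-- The integral vectors as complex vectors. -/
def toC {κ : Type} (c : κ → ℤ) : κ → ℂ := fun i => (c i : ℂ)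

/-- The residue classes. -/
theorem classes (n k δ s : ℕ) (D : Fin n ⊕ Fin k → ℕ) (hD : ∀ i, 0 < D i) (Γ : Finset ℂ) :
    ∃ B : ℕ, ∀ p : Fin ((n * n + 2 ^ k) * (k + 1) + 1) → ℕ, (∀ m, (p m).Prime ∧ B < p m) →
      Function.Injective p →
      ∃ Q : ℕ, 0 < Q ∧ (∀ q : ℕ, q.Prime → q ∣ Q → ∃ m, q = p m) ∧
      ∀ (V : Fin s → Set (Fin n ⊕ Fin k → ℂ)) (d : Fin s → ℕ), (∀ a, Bounded (d a) δ (V a)) →
      ∃ g : Idx D → ℤ, ∀ c : Idx D → ℂ,
        (∀ i, ∃ w : ℂ, IsIntegral (Algebra.adjoin ℤ (Γ : Set ℂ)) w ∧ c i = (g i : ℂ) + Q * w) →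
        Good Γ d V c := by
  classical
  obtain ⟨B, hB⟩ := T2H68.ZD.exists_class_uni (n := n) (k := k) δ s D hD Γ
  refine ⟨B, fun p hp hpinj => ?_⟩
  obtain ⟨Q, hQ, hQp, hmain⟩ := hB p hp hpinj
  refine ⟨Q, hQ, hQp, fun V d hV => ?_⟩
  obtain ⟨G, hG⟩ := hmain (fun a => idealOf (V a)) d (fun a J hJ => by
    obtain ⟨f, h1, h2, h3⟩ := hV a J hJ
    refine ⟨f, h1, h2, ?_⟩
    rw [mem_idealOf]
    intro x hx
    rw [eval_rename]
    exact h3 x hx)
  refine ⟨G, fun c hc => ?_⟩
  obtain ⟨hnc, hkey0⟩ := hG c hc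
  refine ⟨hnc, fun a => ?_⟩
  have hkey := hkey0 a
  intro r Z Λ η hη A hAW hAZ hA
  obtain ⟨K, _, _, z, hz, T, hT, hdim⟩ := generic_point (idealOf A)
  obtain ⟨x₀, hx₀⟩ := nonempty_of_prime hA
  have hpull : ∀ (J : Finset (Fin n ⊕ Fin k)) (f : MvPolynomial J ℂ),
      rename (Subtype.val : J → Fin n ⊕ Fin k) f ∈ idealOf (V a) →
        aeval z (T2H68.ZD.cpull c f) = 0 := by
    intro J f hf
    rw [hz, mem_idealOf]
    intro x hx
    refine hAW hx _ (mem_idealOf.2 fun y hy => ?_)
    rw [← aeval_eq_eval, T2H68.ZD.aeval_cpull c f y (fun i _ => hy.1 i)]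
    have h1 := mem_idealOf.1 hf _ hy.2
    rw [eval_rename] at h1
    rw [aeval_eq_eval]
    have h2 : eval (fun i : J => part c i 0 (y i) / part c i 1 (y i)) f = 0 := h1
    change _ * eval (fun i : J => part c i 0 (y i) / part c i 1 (y i)) f = 0
    rw [h2, mul_zero]
  have hconst : ∀ i, Z.cls i = none → ∃ c : ℂ, IsIntegral (Algebra.adjoin ℤ (Γ : Set ℂ)) c ∧
      z (Sum.inl i) = algebraMap ℂ K c := by
    intro i hi
    refine ⟨Z.const i, (Z.allowed i).isIntegral, ?_⟩
    · have h1 : (X (Sum.inl i) - C (Z.const i) : MvPolynomial (Fin n ⊕ Fin k) ℂ) ∈ idealOf A := by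
        rw [mem_idealOf]
        intro x hx
        obtain ⟨w, hw⟩ := (hAZ x hx).1
        have h2 := (hw i).1 hi
        simp only [map_sub, eval_X, eval_C]
        exact sub_eq_zero.2 h2
      have h2 := (hz _).2 h1
      rw [map_sub, aeval_X, aeval_C, sub_eq_zero] at h2
      exact h2
  have hrel : ∀ i i' l, Z.cls i = some l → Z.cls i' = some l → Polynomial.eval₂
      (Polynomial.aeval (z (Sum.inl i)) : Polynomial ℂ →ₐ[ℂ] K).toRingHom (z (Sum.inl i'))
        (Psi ((Z.mat i).det * (Z.mat i').det).toNat) = 0 := by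
    intro i i' l hi hi'
    rw [← aeval_relPoly, hz, mem_idealOf]
    intro x hx
    obtain ⟨w, hw⟩ := (hAZ x hx).1
    obtain ⟨w1, h1, h2⟩ := (hw i).2 l hi
    obtain ⟨w2, h3, h4⟩ := (hw i').2 l hi'
    exact eval_relPoly_eq_zero (Z.det_pos i) (Z.det_pos i') h1 h3 h2 h4
  have hz0 : ∀ i, z (Sum.inr i) ≠ 0 := by
    intro i h0
    have h1 : (X (Sum.inr i) : MvPolynomial (Fin n ⊕ Fin k) ℂ) ∈ idealOf A := by
      rw [← hz, aeval_X, h0]
    have h2 := mem_idealOf.1 h1 x₀ hx₀
    rw [eval_X] at h2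
    exact (hAZ x₀ hx₀).2.1 i h2
  have hN : ∀ i i', 0 < ((Z.mat i).det * (Z.mat i').det).toNat := by
    intro i i'
    have := mul_pos (Z.det_pos i) (Z.det_pos i')
    omega
  have hfinal := hkey K z hpull r Z.cls _ hN hconst hrel hz0 Λ η hη
    (fun a ha => chi_generic Sum.inr z hz hz0 a _ fun x hx =>
      ⟨(hAZ x hx).2.1, (hAZ x hx).2.2 a ha⟩) T hT
  have h1 : zdim A ≤ (T.card : Cardinal) := hdim
  calc zdim A + (n : Cardinal) + (Module.finrank ℤ Λ : Cardinal)
      ≤ (T.card : Cardinal) + (n : Cardinal) + (Module.finrank ℤ Λ : Cardinal) := by gcongr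
    _ = ((T.card + n + Module.finrank ℤ Λ : ℕ) : Cardinal) := by push_cast; rfl
    _ ≤ ((r + d a : ℕ) : Cardinal) := by exact_mod_cast hfinal
    _ = (d a : Cardinal) + (r : Cardinal) := by push_cast; rw [add_comm]

/-- Residue classes, finite sets of coefficient vectors, and proportions, uniformly for all tuples of
`s` varieties of degree at most `δ`; and every irreducible variety has some degree. -/
theorem result (n k δ s : ℕ) (D : Fin n ⊕ Fin k → ℕ) (hD : ∀ i, 0 < D i) (Γ : Finset ℂ) :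
    (∃ B : ℕ, ∀ p : Fin ((n * n + 2 ^ k) * (k + 1) + 1) → ℕ, (∀ m, (p m).Prime ∧ B < p m) →
      Function.Injective p →
      ∃ Q : ℕ, 0 < Q ∧ (∀ q : ℕ, q.Prime → q ∣ Q → ∃ m, q = p m) ∧
      ∀ (V : Fin s → Set (Fin n ⊕ Fin k → ℂ)) (d : Fin s → ℕ), (∀ a, Bounded (d a) δ (V a)) →
      ∃ g : Idx D → ℤ, ∀ c : Idx D → ℂ,
        (∀ i, ∃ w : ℂ, IsIntegral (Algebra.adjoin ℤ (Γ : Set ℂ)) w ∧ c i = (g i : ℂ) + Q * w) →
        Good Γ d V c) ∧
    (∀ (u : Idx D → ℝ) (c₀ : Idx D → ℤ) (m : ℕ) (ε : ℝ), 0 < m → 0 < ε →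
      ∃ W : Set (ℕ × (Idx D → ℤ)), W.Finite ∧
        (∀ q ∈ W, 0 < q.1 ∧ q.1 ≡ 1 [MOD m] ∧ (∀ i, |(q.2 i : ℝ) / q.1 - u i| < ε) ∧
          ∀ i, q.2 i ≡ c₀ i [ZMOD m]) ∧
        ∀ (V : Fin s → Set (Fin n ⊕ Fin k → ℂ)) (d : Fin s → ℕ), (∀ a, Bounded (d a) δ (V a)) →
          ∃ q ∈ W, Good Γ d V (toC q.2)) ∧
    (∀ (u : Idx D → ℝ) (c₀ : Idx D → ℤ) (m : ℕ) (ε : ℝ), 0 < m → 0 < ε →
      ∃ η : ℝ, 0 < η ∧ ∃ H₀ : ℕ,
        ∀ (V : Fin s → Set (Fin n ⊕ Fin k → ℂ)) (d : Fin s → ℕ), (∀ a, Bounded (d a) δ (V a)) →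
          ∀ H : ℕ, H₀ ≤ H → η * (H : ℝ) ^ (Fintype.card (Idx D)) ≤ Nat.card {c : Idx D → ℤ //
            (∀ i, |(c i : ℝ) - H * u i| ≤ ε * H) ∧ (∀ i, (m : ℤ) ∣ c i - c₀ i) ∧
              Good Γ d V (toC c)}) ∧
    ∀ V : Set (Fin n ⊕ Fin k → ℂ), (idealOf V).IsPrime →
      ∃ d δ' : ℕ, zdim V = d ∧ Bounded d δ' V := by
  classical
  have hmain := classes n k δ s D hD Γ
  have hint : ∀ b : ℤ, IsIntegral (Algebra.adjoin ℤ (Γ : Set ℂ)) (b : ℂ) := by
    intro b
    have : IsIntegral (Algebra.adjoin ℤ (Γ : Set ℂ))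
      (algebraMap (Algebra.adjoin ℤ (Γ : Set ℂ)) ℂ (b : Algebra.adjoin ℤ (Γ : Set ℂ))) :=
      isIntegral_algebraMap
    rwa [map_intCast] at this
  -- a modulus which is prime to `m`
  have hmod : ∀ m : ℕ, 0 < m → ∃ Q : ℕ, 0 < Q ∧ Nat.Coprime Q m ∧
      ∀ (V : Fin s → Set (Fin n ⊕ Fin k → ℂ)) (d : Fin s → ℕ), (∀ a, Bounded (d a) δ (V a)) →
      ∃ g : Idx D → ℤ, ∀ c : Idx D → ℤ, (∀ i, (Q : ℤ) ∣ c i - g i) → Good Γ d V (toC c) := by
    intro m hm
    obtain ⟨B, hB⟩ := hmain
    obtain ⟨p, hp, hpinj⟩ := T2H68.ZD.exists_prime_tuple ((n * n + 2 ^ k) * (k + 1) + 1) (B + m)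
    obtain ⟨Q, hQ, hQp, hcl⟩ := hB p (fun l => ⟨(hp l).1, by have := (hp l).2; omega⟩) hpinj
    refine ⟨Q, hQ, T2H68.ZD.coprime_of_primes hm fun q hq hqQ => ?_, fun V d hV => ?_⟩
    · obtain ⟨l, rfl⟩ := hQp q hq hqQ
      have := (hp l).2
      omega
    · obtain ⟨g, hg⟩ := hcl V d hV
      refine ⟨g, fun c hc => hg _ fun i => ?_⟩
      obtain ⟨b, hb⟩ := hc i
      refine ⟨(b : ℂ), hint b, ?_⟩
      have h1 : c i = g i + Q * b := by linarith
      show ((c i : ℤ) : ℂ) = _
      rw [h1]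
      push_cast
      ring
  refine ⟨hmain, ?_, ?_, ?_⟩
  · intro u c₀ m ε hm hε
    obtain ⟨Q, hQ, hco, hcl⟩ := hmod m hm
    obtain ⟨W, hW, h1, h2⟩ := T2H68.ZD.finite_reps (ι := Idx D) Q m hQ hm hco c₀ u ε hε
    refine ⟨W, hW, h1, fun V d hV => ?_⟩
    obtain ⟨g, hg⟩ := hcl V d hV
    obtain ⟨q, hq, hqr⟩ := h2 g
    refine ⟨q, hq, hg _ fun i => ?_⟩
    obtain ⟨b, hb⟩ := hqr i
    exact ⟨b, by rw [hb]; ring⟩
  · intro u c₀ m ε hm hε
    obtain ⟨Q, hQ, hco, hcl⟩ := hmod m hm
    obtain ⟨η, hη, H₀, hH₀⟩ := T2H68.ZD.uni_proportion (κ := Idx D) (Q * m) (Nat.mul_pos hQ hm)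
      u ε hε
    refine ⟨η, hη, H₀, fun V d hV H hH => ?_⟩
    obtain ⟨g, hg⟩ := hcl V d hV
    obtain ⟨G, hG⟩ := T2H68.ZD.crt_class Q m hco g c₀
    exact hH₀ G _ (fun c hc => ⟨(hG c hc).2, hg c (hG c hc).1⟩) H hH
  · intro V hV
    have hfin : Algebra.trdeg ℂ (MvPolynomial (Fin n ⊕ Fin k) ℂ ⧸ idealOf V) < Cardinal.aleph0 :=
      trdeg_lt_aleph0_of_finiteType
    obtain ⟨d, hd⟩ := Cardinal.lt_aleph0.1 hfin
    obtain ⟨δ', hδ'⟩ := T2H68.ZD.exists_degIdeal (idealOf V) hd
    refine ⟨d, δ', hd, fun J hJ => ?_⟩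
    obtain ⟨f, h1, h2, h3⟩ := hδ' J hJ
    refine ⟨f, h1, h2, fun x hx => ?_⟩
    have h4 := mem_idealOf.1 h3 x hx
    rwa [eval_rename] at h4

end Pool.Agent.Results.MP_eeb1a4_ag.UniformPullbacks
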