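import Pool.Agent.T2H44.RD.Final

/-!
# Several normal functions: real classes in `F⁰` of variations of mixed Hodge structures with a gap in
the weights

Let `X` be a compact connected Riemann surface, `D ⊂ X` the set of punctures and `V` an admissible variation
of mixed Hodge structure of rank `n` over the curve `X ∖ D`, with arbitrary weights. Let `b_p` be the rank of
the space of the flat real local sections of `F^p V`. Let `r ≥ 1` and suppose that

* `rank (V / W_{-2r-1} V) ≤ b_{1-r} + r` and
* `b_{-i} ≤ b_{1-i} + i` for `0 < i < r` (no condition for `r = 1`).

The theorem: there is a finite set `E` of points such that for `x ∉ D ∪ E` every real vector of `F⁰ V_x` is the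
value at `x` of a flat section of `F⁰ V`; moreover the dimension of `V_{x,K} ∩ F⁰ V_x` over `K` does not depend on
`x ∉ D ∪ E`, for every subfield `K` of `ℝ` (with the same exceptional set `E` for all `K`). For `V = W_0 V`
and `K = ℚ` these vectors are the Hodge classes of `V_x`, so that the points of the Hodge locus which are
defined by new Hodge classes of `V` are finite in number, as predicted by the Zilber-Pink conjecture.

The main case is an extension `0 → H → V → ℚ(0)^s → 0` with `H` of weights at most `-2r-1` and `s ≤ r`, that is
`s` normal functions `ν_1, …, ν_s` (for instance of families of higher Chow cycles): if no real combination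
of them is flat modulo `F^{1-r}` (without splitting identically), then for all but finitely many `x` all the
real relations between the classes `ν_1(x), …, ν_s(x)` are identical relations. For `s = r = 1` this is the
theorem `WeightGapThree` of the starting files (the case `V / W_{-3} V = ℚ(0)`). The relations are
uniform: there are infinitely many rational combinations to be excluded at once. Without the gap the theorem
is false: for the Kummer extension of `ℚ(0)` by `ℚ(1)` attached to a function `f` the real classes of `F⁰` jump
along the curve `|f| = 1` (here `r = 2`, `b_{-1} = 2`, `b_0 = 0`).

The variation is given by its local period data (`Pool/Agent/T2H44/RD/Defs.lean`, modelled on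
`Pool/Agent/Y92/GS/Defs.lean`):

* `DiscChart n lev`: over a small disc, the weight filtration on `ℚⁿ` and a holomorphic frame of `ℂⁿ` with
  levels `lev j` (`F^p` is spanned by the vectors of level at least `p`) such that all fibres are mixed Hodge
  structures and Griffiths transversality holds;
* `CuspChart n lev`: near a puncture, the same on a half plane after the ramified covering which makes the
  monodromy unipotent, with `F = exp (z N) F(q)`, `F(q)` with a holomorphic frame at `q = 0`, such that the
  nilpotent orbit `exp (z N) F(0)` is a mixed Hodge structure for `Im z` large (parts of the admissibility);
* `Variation`: charts at all points of `X`, such that any two periods at the same point differ by an element of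
  `GL_n(ℚ)`;
* `flat p`: the flat real sections of `F^p` over the chart; `Variation.Small r`: the conditions on the ranks, in
  all charts; `classes K F`: the vectors of `Kⁿ` in `F⁰`.

## Outline of the proof

* A flat real section `w` has coordinates in the frame which satisfy a linear differential system, triangular
  with respect to the levels by transversality. If `w ∈ F⁰` at `x`, the coordinates modulo `F^{1-r}` vanish
  to order at least `r` at `x` (`order_gL`), and the ones modulo `F^{-r}` (the deep coordinates) have
  derivatives in the span of the coordinates modulo `F^{1-r}` (`ode_gL`). On `W_{-2r-1}` the deep coordinates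
  of real vectors are injective, as there are no real vectors in `W_{-2r-1} ∩ F^{-r}` (`real_zero`).
* Zero estimate (`zero_estimate`): near any point `x₀`, in a real family with at most `r` dimensions
  more than a subspace with injective deep coordinates at `x₀`, no member has a zero of order `r` at
  `x ≠ x₀`. (Leading terms at `x₀` in a basis adapted to the order of vanishing; the deep coordinates of the
  leading terms vanish by the differential system, so at most `r` different orders occur, and the operators
  `u d/du - m` separate them.)
* At a puncture the functions are `∑ q^{m_j} (polynomial in z) (1 + O(q))`. Zeros of order `r` with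
  `Im z → ∞` give approximate solutions, up to `O(exp (-y))`, of a semialgebraic system in the normalised real
  coefficients, `exp (2 π i x)` and `y`; by the theorem of Tarski and Seidenberg and compactness there are exact
  solutions for all large `y` (`qe`, `approx`), that is, zeros of order `r` of the model functions (nilpotent orbits
  graded by the order in `q`) at infinitely many points of a compact strip. This contradicts the zero estimate
  for the model functions (`model`).
* The sections of `F^{-i}`, `0 < i < r`, are treated in the same way with the rank condition for `i`
  (`disc_step`, `cusp_step`), and compactness of `X` gives the theorem (`global`, `main`).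
-/

set_option autoImplicit false

namespace Pool.Agent.Results.MP_eeb1a4_ag.WeightGapClasses

open Metric Pool.Agent.T2H44.RD
open Pool.Agent.Y92.Gap (point qexp)

/-- **Real classes in `F⁰` of variations of mixed Hodge structures with a gap in the weights.** -/
theorem result (n r : ℕ) (hr : 1 ≤ r) (lev : Fin n → ℤ) (X : Type*) [TopologicalSpace X]
    [ChartedSpace ℂ X] [IsManifold (modelWithCornersSelf ℂ ℂ) 1 X] [CompactSpace X]
    [ConnectedSpace X] [T2Space X] (D : Set X) (V : Variation n lev X D) (hV : V.Small r) :
    ∃ E : Set X, E.Finite ∧
      (∀ p ∉ D, ∀ u ∈ ball (0 : ℂ) (V.disc p).rad, point p u ∉ E →
        ∀ w, rv w ∈ (V.disc p).F u 0 → w ∈ (V.disc p).flat 0) ∧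
      (∀ p ∈ D, ∀ z, qexp z ∈ ball (0 : ℂ) (V.cusp p).rad → point p (qexp z ^ (V.cusp p).e) ∉ E →
        ∀ w, rv w ∈ (V.cusp p).F z 0 → w ∈ (V.cusp p).flat 0) ∧
      ∀ K : Subfield ℝ, ∃ d : ℕ, ∀ x ∉ D, x ∉ E → ∀ W F, HasPeriod D V.disc V.cusp x W F →
        Module.finrank K (classes K F) = d :=
  main hr V hV

end Pool.Agent.Results.MP_eeb1a4_ag.WeightGapClasses
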